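import Pool.Agent.N225.PC.Px1

/-!
# Project PC, part PROXM: the proximity function of any divisor is rarely large
-/

set_option autoImplicit false

namespace Pool.Agent.N225.PC

open NumberField IsDedekindDomain Module Polynomial
open Pool.Agent.N753.DR
open Pool.Agent.N776.PX (ov mem_ov pf mk_int mk_nat_le_one finsum_eq)
open Pool.Agent.N262.DR (gp gp_eq badS_finite pow_bound Bx_finite)

/-- the proximity function at the tuples which are not exceptional -/
theorem prox_le {K L : Type} [Field K] [NumberField K] [Field L] [NumberField L] [Algebra K L]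
    {m : ℕ} (S : Finset ℕ) (q : Fin m → ℕ) {r : Fin m → ℕ} (G : MvPolynomial (Fin m) K)
    (x : Fin m → L) (c : ∀ i, Fin (r i + 1) → 𝓞 K)
    (hx : ∀ i, ∑ j, algebraMap K L (c i j) * x i ^ (j : ℕ) = 0)
    (hG : MvPolynomial.aeval x G ≠ 0) (V : Finset (HeightOneSpectrum (𝓞 K)))
    (hV : ∀ v, v ∈ V ↔ ∃ p ∈ S, (p : 𝓞 K) ∈ v.asIdeal) (s N : ℕ) (hN : N ≠ 0)
    (y : Fin s → 𝓞 K) (A : ℝ) (hA : 0 ≤ A)
    (h : (∀ t, y t ≠ 0) → ∀ w : HeightOneSpectrum (𝓞 L),
      Real.log ((∏ i, max (FinitePlace.mk w (x i)) 1 ^ q i) /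
          FinitePlace.mk w (MvPolynomial.aeval x G)) ≤
      ∑ t, -Real.log (FinitePlace.mk w (algebraMap K L (y t : 𝓞 K))) -
            Real.log (FinitePlace.mk w (N : L)))
    (hi : ∀ σ : K →+* ℂ, ¬ ∃ z : Fin m → ℂ, (∀ i, ∑ j, σ (c i j : K) * z i ^ (j : ℕ) = 0) ∧
        ‖MvPolynomial.eval z (MvPolynomial.map σ G)‖ ≤ Real.exp (-A) * ∏ i, max 1 ‖z i‖ ^ q i)
    (hy : ∀ t, ∀ v ∈ V, ¬ ∃ e : ℕ, y t ∈ v.asIdeal ^ e ∧ A ≤ e * lN v ∧ 1 ≤ e) :
    proxM S q G x ≤ (A * (1 + s * V.card) +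
      ∑ v ∈ V, -Real.log (FinitePlace.mk v (N : K))) * finrank ℚ L := by
  classical
  have h1 := inf_part q G x c hx hG (Real.exp (-A)) (Real.exp_pos _) hi
  rw [Real.log_exp, neg_neg] at h1
  have h2 := fin_part (L := L) s N hN V (fun w : HeightOneSpectrum (𝓞 L) =>
    Real.log ((∏ i, max (FinitePlace.mk w (x i)) 1 ^ q i) /
          FinitePlace.mk w (MvPolynomial.aeval x G))) y A hA h hy
  have h3 := finsum_eq S V hV (fun w : HeightOneSpectrum (𝓞 L) =>
    Real.log ((∏ i, max (FinitePlace.mk w (x i)) 1 ^ q i) /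
          FinitePlace.mk w (MvPolynomial.aeval x G)))
  have h4 : 0 ≤ ∑ v ∈ V, -Real.log (FinitePlace.mk v (N : K)) := by
    refine Finset.sum_nonneg fun v _ => ?_
    have := Real.log_nonpos (apply_nonneg _ _) (mk_nat_le_one v N)
    linarith
  have h5 : (finrank K L : ℝ) ≤ finrank ℚ L := by
    have e1 : finrank ℚ K * finrank K L = finrank ℚ L := finrank_mul_finrank ℚ K L
    have e2 : 0 < finrank ℚ K := finrank_pos
    have e3 : finrank K L ≤ finrank ℚ L := by
      rw [← e1]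
      exact Nat.le_mul_of_pos_left _ e2
    exact_mod_cast e3
  have h6 : 0 ≤ (s : ℝ) * V.card * A + ∑ v ∈ V, -Real.log (FinitePlace.mk v (N : K)) := by
    positivity
  have h7 := mul_le_mul_of_nonneg_right h5 h6
  unfold proxM
  have h8 : (∑ᶠ v : HeightOneSpectrum (𝓞 L), if ∃ p ∈ S, (p : 𝓞 L) ∈ v.asIdeal then
      Real.log ((∏ i, max (FinitePlace.mk v (x i)) 1 ^ q i) /
        FinitePlace.mk v (MvPolynomial.aeval x G)) else 0) ≤
      (finrank ℚ L : ℝ) * (s * V.card * A + ∑ v ∈ V, -Real.log (FinitePlace.mk v (N : K))) :=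
    h3.le.trans (h2.trans h7)
  refine (add_le_add h1 h8).trans (le_of_eq ?_)
  ring

theorem red1 (h4 : StmRed) (K : Type) [Field K] [NumberField K] (r : ℕ) (hr : 1 ≤ r) :
    ∃ C0 : ℝ, 0 < C0 ∧ ∀ (T : ℝ) (p : K[X]), AtH r (r * T) p → ∃ c : Fin (r + 1) → 𝓞 K,
      gp c = p ∧ c ≠ 0 ∧ (∀ j, (sz (c j) : ℝ) ≤ C0 * Real.exp (r * T / finrank ℚ K)) ∧
      ∀ (L : Type) [Field L] [NumberField L] [Algebra K L] (x : L), minpoly K x = p →
        ∑ j, algebraMap K L (c j) * x ^ (j : ℕ) = 0 := by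
  obtain ⟨Bad, C0, hC0, h⟩ := h4 K r hr
  refine ⟨C0, hC0, fun T p hp => ?_⟩
  obtain ⟨M, _, _, _, x', hM, hd, hxp, hht⟩ := hp
  obtain ⟨c, l, hl, hcl, -, hsz⟩ := h M x' hM hd
  have hxint : IsIntegral K x' := by
    have : FiniteDimensional K M := Module.Finite.of_restrictScalars_finite ℚ K M
    exact IsIntegral.of_finite K x'
  have hmon := minpoly.monic hxint
  rw [hxp] at hcl hmon hd
  have hpr : p.coeff r = 1 := by
    conv_lhs => rw [← hd]
    exact hmon
  refine ⟨c, gp_eq hmon hd hl hcl, ?_, ?_, ?_⟩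
  · rintro rfl
    have h1 := hcl (Fin.last r)
    rw [Fin.val_last, hpr, mul_one] at h1
    exact hl (by rw [← h1]; simp)
  · intro j
    refine (hsz j).trans ?_
    gcongr
  · intro L _ _ _ x hx
    have h0 : ∑ j : Fin (r + 1), algebraMap K L (p.coeff j) * x ^ (j : ℕ) = 0 := by
      have h1 := minpoly.aeval K x
      rw [hx, Polynomial.aeval_eq_sum_range, hd] at h1
      rw [← h1, Finset.sum_range]
      exact Finset.sum_congr rfl fun j _ => by rw [Algebra.smul_def]
    calc ∑ j, algebraMap K L (c j) * x ^ (j : ℕ)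
        = algebraMap K L l * ∑ j : Fin (r + 1), algebraMap K L (p.coeff j) * x ^ (j : ℕ) := by
          rw [Finset.mul_sum]
          refine Finset.sum_congr rfl fun j _ => ?_
          rw [hcl j, map_mul, mul_assoc]
      _ = 0 := by rw [h0, mul_zero]

theorem ht_finite (h5 : StmCntAll) (K : Type) [Field K] [NumberField K] {m : ℕ} (r : Fin m → ℕ)
    (hr : ∀ i, 1 ≤ r i) (T : ℝ) (hT : 0 ≤ T) : {P : Fin m → K[X] | HT r T P}.Finite := by
  have h : ∀ i, {p : K[X] | AtH (r i) (r i * T) p}.Finite := by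
    intro i
    obtain ⟨C, -, hC⟩ := h5 K (r i) (hr i)
    exact (hC (r i * T) (by positivity)).1
  exact Set.Finite.pi' h

theorem ht_mono (K : Type) [Field K] [NumberField K] {m : ℕ} (r : Fin m → ℕ) {T T' : ℝ}
    (h : T ≤ T') {P : Fin m → K[X]} (hP : HT r T P) : HT r T' P := by
  intro i
  obtain ⟨M, _, _, _, x, h1, h2, h3, h4⟩ := hP i
  exact ⟨M, _, _, _, x, h1, h2, h3, h4.trans (mul_le_mul_of_nonneg_left h (Nat.cast_nonneg _))⟩

theorem union_bound {ι Ω : Type} [Fintype ι] (a : ℝ) (E : ι → ℕ → Set Ω)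
    (h : ∀ j, ∃ ν C : ℝ, 0 < ν ∧ ∀ B : ℕ, 1 ≤ B →
      ((E j B).ncard : ℝ) ≤ C * (B : ℝ) ^ (a - ν)) :
    ∃ ν C : ℝ, 0 < ν ∧ 0 ≤ C ∧ ∀ B : ℕ, 1 ≤ B →
      ((⋃ j, E j B).ncard : ℝ) ≤ C * (B : ℝ) ^ (a - ν) := by
  choose ν C hν h using h
  have h0 : 0 ≤ ∑ j, (ν j)⁻¹ := Finset.sum_nonneg fun j _ => (inv_pos.2 (hν j)).le
  have hs : ∀ j, (1 + ∑ j, (ν j)⁻¹)⁻¹ ≤ ν j := by
    intro j
    rw [inv_le_comm₀ (by linarith) (hν j)]
    have := Finset.single_le_sum (f := fun j => (ν j)⁻¹)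
      (fun j _ => (inv_pos.2 (hν j)).le) (Finset.mem_univ j)
    linarith
  refine ⟨(1 + ∑ j, (ν j)⁻¹)⁻¹, ∑ j, |C j|, inv_pos.2 (by linarith),
    Finset.sum_nonneg fun j _ => abs_nonneg _, fun B hB => ?_⟩
  have h1 : ((⋃ j, E j B).ncard : ℝ) ≤ ∑ j, ((E j B).ncard : ℝ) := by
    exact_mod_cast Set.ncard_iUnion_le_of_fintype _
  refine h1.trans ?_
  rw [Finset.sum_mul]
  refine Finset.sum_le_sum fun j _ => (h j B hB).trans ?_
  have hB' : (1 : ℝ) ≤ B := by exact_mod_cast hB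
  have h2 : (B : ℝ) ^ (a - ν j) ≤ (B : ℝ) ^ (a - (1 + ∑ j, (ν j)⁻¹)⁻¹) :=
    Real.rpow_le_rpow_of_exponent_le hB' (by linarith [hs j])
  exact mul_le_mul (le_abs_self _) h2 (Real.rpow_nonneg (by linarith) _) (abs_nonneg _)

/-- **PC/PROXM** -/
theorem t (h1 : StmPxa) (h2 : StmLocW) (h3 : StmPolyV) (h4 : StmRed) (h5 : StmCntAll) :
    StmProxM := by
  classical
  intro K _ _ m r q hr G hG0 hGq S hS κ hκ
  set V := (badS_finite (K := K) S).toFinset with hVdef
  have hV : ∀ v, v ∈ V ↔ ∃ p ∈ S, (p : 𝓞 K) ∈ v.asIdeal := by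
    intro v
    rw [hVdef, Set.Finite.mem_toFinset]
    constructor
    · rintro ⟨p, hp, -, hv⟩
      exact ⟨p, hp, hv⟩
    · rintro ⟨p, hp, hv⟩
      exact ⟨p, hp, (hS p hp).ne_zero, hv⟩
  obtain ⟨s, R, N, hR0, hN, hR⟩ := h2 K m r q G hr hG0 hGq
  set κ1 : ℝ := κ / (2 * (1 + s * V.card)) with hκ1
  have hsV : (0 : ℝ) < 1 + s * V.card := by positivity
  have hκ1p : 0 < κ1 := by positivity
  have hκ1e : κ1 * (1 + s * V.card) = κ / 2 := by
    rw [hκ1]
    field_simp
  set CN : ℝ := ∑ v ∈ V, -Real.log (FinitePlace.mk v (N : K)) with hCN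
  have hCN0 : 0 ≤ CN := by
    refine Finset.sum_nonneg fun v _ => ?_
    have := Real.log_nonpos (apply_nonneg _ _) (mk_nat_le_one v N)
    linarith
  set d : ℝ := (finrank ℚ K : ℝ) with hd
  have hd1 : 1 ≤ d := by
    rw [hd]
    exact_mod_cast (Module.finrank_pos : 0 < finrank ℚ K)
  have hd0 : 0 < d := by linarith
  set D : ℝ := ∑ i, (r i : ℝ) * (r i + 1) with hD
  -- the exceptional sets
  set E : ((K →+* ℂ) ⊕ (Fin s × V)) → ℕ → Set (∀ i, Fin (r i + 1) → 𝓞 K) := fun j B =>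
    Sum.elim (fun σ : K →+* ℂ => {c | (∀ i, c i ∈ Bx K (r i + 1) (B ^ r i) ∧ c i ≠ 0) ∧
      ∃ z : Fin m → ℂ, (∀ i, ∑ j, σ (c i j : K) * z i ^ (j : ℕ) = 0) ∧
        ‖MvPolynomial.eval z (MvPolynomial.map σ G)‖ ≤
          (B : ℝ) ^ (-κ1) * ∏ i, max 1 ‖z i‖ ^ q i})
      (fun p : Fin s × V => {c | (∀ i, c i ∈ Bx K (r i + 1) (B ^ r i)) ∧
        ∃ e : ℕ, MvPolynomial.eval (fun s => c s.1 s.2) (R p.1) ∈ p.2.1.asIdeal ^ e ∧
        κ1 * Real.log B ≤ e * lN p.2.1 ∧ 1 ≤ e}) j with hE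
  obtain ⟨ν0, C0, hν0, hC0, hcnt⟩ := union_bound (d * D) E (by
    rintro (σ | ⟨t, v⟩)
    · exact h1 K σ m r r q (MvPolynomial.map σ G) hr hr
        ((map_ne_zero_iff _ (MvPolynomial.map_injective σ σ.injective)).2 hG0)
        (fun i => (deg_map σ G i).trans (hGq i)) κ1 hκ1p
    · obtain ⟨ν, C, hν, h⟩ := h3 K m (fun i => r i + 1) r (fun i => Nat.le_add_left 1 _) hr
        (R t) (hR0 t) v.1 κ1 hκ1p
      refine ⟨ν, C, hν, fun B hB => ?_⟩
      have := h B hB
      push_cast at this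
      exact this)
  choose CR hCR hred using fun i => red1 h4 K (r i) (hr i)
  set c0 : ℝ := 1 + ∑ i, CR i with hc0
  have hc01 : 1 ≤ c0 := by
    have : 0 ≤ ∑ i, CR i := Finset.sum_nonneg fun i _ => (hCR i).le
    linarith
  have hCRc : ∀ i, CR i ≤ c0 := by
    intro i
    have := Finset.single_le_sum (f := CR) (fun i _ => (hCR i).le) (Finset.mem_univ i)
    linarith
  set T0 : ℝ := Real.log (2 * c0) + 2 * CN / κ with hT0
  have hlog0 : 0 ≤ Real.log (2 * c0) := Real.log_nonneg (by linarith)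
  have hT00 : 0 ≤ T0 := by positivity
  set N0 : ℝ := ({P : Fin m → K[X] | HT r T0 P}.ncard : ℝ) with hN0
  have hN00 : 0 ≤ N0 := Nat.cast_nonneg _
  set ν : ℝ := ν0 / d with hν
  refine ⟨ν, C0 * (2 * c0) ^ |d * D - ν0| + N0 * Real.exp (|D - ν| * T0), by positivity,
    fun T hT => ?_⟩
  have hfin := ht_finite h5 K r hr T hT
  refine ⟨hfin.subset fun P hP => hP.2, ?_⟩
  have hp1 : 0 ≤ C0 * (2 * c0) ^ |d * D - ν0| * Real.exp ((D - ν) * T) := by positivity
  rcases lt_or_ge T T0 with hTT | hTT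
  · -- small `T`
    have e1 : ({P : Fin m → K[X] | (∃ (L : Type) (_ : Field L) (_ : NumberField L)
        (_ : Algebra K L) (x : Fin m → L), (∀ i, minpoly K (x i) = P i) ∧
        MvPolynomial.aeval x G ≠ 0 ∧
        κ * T * finrank ℚ L < proxM S q G x) ∧ HT r T P}.ncard : ℝ) ≤ N0 := by
      rw [hN0]
      have e0 : {P : Fin m → K[X] | (∃ (L : Type) (_ : Field L) (_ : NumberField L)
        (_ : Algebra K L) (x : Fin m → L), (∀ i, minpoly K (x i) = P i) ∧
        MvPolynomial.aeval x G ≠ 0 ∧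
        κ * T * finrank ℚ L < proxM S q G x) ∧ HT r T P} ⊆ {P | HT r T0 P} :=
        fun P hP => ht_mono K r hTT.le hP.2
      exact_mod_cast Set.ncard_le_ncard e0 (ht_finite h5 K r hr T0 hT00)
    have e2 : 1 ≤ Real.exp (|D - ν| * T0) * Real.exp ((D - ν) * T) := by
      rw [← Real.exp_add]
      apply Real.one_le_exp
      have e3 : -|D - ν| ≤ D - ν := neg_abs_le _
      have e4 : 0 ≤ |D - ν| := abs_nonneg _
      nlinarith
    calc _ ≤ N0 := e1
      _ = N0 * 1 := (mul_one _).symm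
      _ ≤ N0 * (Real.exp (|D - ν| * T0) * Real.exp ((D - ν) * T)) := by gcongr
      _ ≤ _ := by
        rw [add_mul, mul_assoc N0]
        linarith
  · -- large `T`
    set y : ℝ := Real.exp (T / d) with hy
    have hy1 : 1 ≤ y := Real.one_le_exp (by positivity)
    set B : ℕ := ⌈c0 * y⌉₊ with hB
    have hBl : c0 * y ≤ B := Nat.le_ceil _
    have hBu : (B : ℝ) ≤ 2 * c0 * y := by
      have := Nat.ceil_lt_add_one (a := c0 * y) (by positivity)
      have : 1 ≤ c0 * y := one_le_mul_of_one_le_of_one_le hc01 hy1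
      linarith
    have hyB : y ≤ B := by
      have : 1 * y ≤ c0 * y := mul_le_mul_of_nonneg_right hc01 (by positivity)
      linarith
    have hB1' : (1 : ℝ) ≤ B := hy1.trans hyB
    have hB1 : 1 ≤ B := by exact_mod_cast hB1'
    have hlogB0 : 0 ≤ Real.log B := Real.log_nonneg hB1'
    have hlogB : Real.log B ≤ T + Real.log (2 * c0) := by
      have e1 := Real.log_le_log (by linarith) hBu
      rw [Real.log_mul (by positivity) (by positivity), hy, Real.log_exp] at e1
      have e2 : T / d ≤ T := div_le_self hT hd1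
      linarith
    have hsub : {P : Fin m → K[X] | (∃ (L : Type) (_ : Field L) (_ : NumberField L)
        (_ : Algebra K L) (x : Fin m → L), (∀ i, minpoly K (x i) = P i) ∧
        MvPolynomial.aeval x G ≠ 0 ∧
        κ * T * finrank ℚ L < proxM S q G x) ∧ HT r T P} ⊆
        (fun (c : ∀ i, Fin (r i + 1) → 𝓞 K) i => gp (c i)) '' ⋃ j, E j B := by
      rintro P ⟨⟨L, _, _, _, x, hxP, hxG, hbig⟩, hHT⟩
      choose c hcP hc0' hcsz hcx using fun i => hred i T (P i) (hHT i)
      refine ⟨c, ?_, funext fun i => hcP i⟩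
      have hbox : ∀ i, c i ∈ Bx K (r i + 1) (B ^ r i) := by
        intro i j
        have e1 := hcsz i j
        have e2 : Real.exp (r i * T / finrank ℚ K) = y ^ r i := by
          rw [hy, ← Real.exp_nat_mul, mul_div_assoc]
        rw [e2] at e1
        have e3 : c0 * y ^ r i ≤ (c0 * y) ^ r i := by
          rw [mul_pow]
          exact mul_le_mul_of_nonneg_right (le_self_pow₀ hc01 (by have := hr i; omega))
            (by positivity)
        have e4 : (c0 * y) ^ r i ≤ (B : ℝ) ^ r i := pow_le_pow_left₀ (by positivity) hBl _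
        have e5 : CR i * y ^ r i ≤ c0 * y ^ r i :=
          mul_le_mul_of_nonneg_right (hCRc i) (by positivity)
        have e6 : (sz (c i j) : ℝ) ≤ (B : ℝ) ^ r i := by linarith
        exact_mod_cast e6
      by_contra hcon
      rw [Set.mem_iUnion, not_exists] at hcon
      have hA : 0 ≤ κ1 * Real.log B := by positivity
      have hfinal := prox_le S q G x c (fun i => hcx i L (x i) (hxP i)) hxG V hV s N hN
        (fun t => MvPolynomial.eval (fun s => c s.1 s.2) (R t)) (κ1 * Real.log B) hA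
        (fun hne w => hR L x c (fun i => hcx i L (x i) (hxP i)) hxG hne w)
        (by
          intro σ hz
          apply hcon (Sum.inl σ)
          obtain ⟨z, hz1, hz2⟩ := hz
          refine ⟨fun i => ⟨hbox i, hc0' i⟩, z, hz1, ?_⟩
          have e1 : (B : ℝ) ^ (-κ1) = Real.exp (-(κ1 * Real.log B)) := by
            rw [Real.rpow_def_of_pos (by linarith)]
            congr 1
            ring
          rw [e1]
          exact hz2)
        (by
          intro t v hv he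
          exact hcon (Sum.inr (t, ⟨v, hv⟩)) ⟨hbox, he⟩)
      have hL0 : (0 : ℝ) < finrank ℚ L := by
        exact_mod_cast (Module.finrank_pos : 0 < finrank ℚ L)
      have e1 := lt_of_mul_lt_mul_right (hbig.trans_le hfinal) hL0.le
      rw [← hCN] at e1
      have e2 : κ1 * Real.log B * (1 + s * V.card) = κ / 2 * Real.log B := by
        rw [← hκ1e]; ring
      rw [e2] at e1
      have e3 : κ / 2 * Real.log B ≤ κ / 2 * (T + Real.log (2 * c0)) := by gcongr
      have e4 : κ * T < κ * (Real.log (2 * c0) + 2 * CN / κ) := by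
        have : κ * (2 * CN / κ) = 2 * CN := by field_simp
        rw [mul_add, this]
        linarith
      have e5 := lt_of_mul_lt_mul_left e4 hκ.le
      exact absurd e5 (not_lt.2 hTT)
    have hEf : (⋃ j, E j B).Finite := by
      have e1 : {c : ∀ i, Fin (r i + 1) → 𝓞 K |
          ∀ i, c i ∈ Bx K (r i + 1) (B ^ r i)}.Finite :=
        Set.Finite.pi' fun i => Bx_finite (K := K) (r i + 1) (B ^ r i)
      refine e1.subset fun c hc => ?_
      rw [Set.mem_iUnion] at hc
      obtain ⟨(σ | p), hc⟩ := hc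
      · exact fun i => (hc.1 i).1
      · exact hc.1
    have e1 : ({P : Fin m → K[X] | (∃ (L : Type) (_ : Field L) (_ : NumberField L)
        (_ : Algebra K L) (x : Fin m → L), (∀ i, minpoly K (x i) = P i) ∧
        MvPolynomial.aeval x G ≠ 0 ∧
        κ * T * finrank ℚ L < proxM S q G x) ∧ HT r T P}.ncard : ℝ) ≤
        ((⋃ j, E j B).ncard : ℝ) := by
      exact_mod_cast (Set.ncard_le_ncard hsub (hEf.image _)).trans (Set.ncard_image_le hEf)
    refine e1.trans ((hcnt B hB1).trans ?_)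
    have e2 := pow_bound (c := 2 * c0) (B := B) (y := y) (E := d * D - ν0) (by linarith)
      (by positivity) hyB hBu
    have e3 : y ^ (d * D - ν0) = Real.exp ((D - ν) * T) := by
      rw [hy, ← Real.exp_mul, hν]
      congr 1
      field_simp
    rw [e3] at e2
    calc C0 * (B : ℝ) ^ (d * D - ν0) ≤
          C0 * ((2 * c0) ^ |d * D - ν0| * Real.exp ((D - ν) * T)) := by gcongr
      _ = C0 * (2 * c0) ^ |d * D - ν0| * Real.exp ((D - ν) * T) := by ring
      _ ≤ _ := by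
        rw [add_mul]
        have : 0 ≤ N0 * Real.exp (|D - ν| * T0) * Real.exp ((D - ν) * T) := by positivity
        linarith

end Pool.Agent.N225.PC
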