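import Mathlib
import Pool.Agent.N753.DR.Stm6
import Pool.Agent.N776.PX.Loc
import Pool.Agent.N262.DR.Deg

set_option autoImplicit false

namespace Pool.Agent.N225.PC

open NumberField IsDedekindDomain Module Polynomial
open Pool.Agent.N753.DR
open Pool.Agent.N776.PX (ov mem_ov pf mk_int mk_nat_le_one finsum_eq)

theorem deg_map {m : ℕ} {K : Type} [Field K] (σ : K →+* ℂ) (G : MvPolynomial (Fin m) K)
    (i : Fin m) : (MvPolynomial.map σ G).degreeOf i ≤ G.degreeOf i := by
  rw [MvPolynomial.degreeOf_eq_sup, MvPolynomial.degreeOf_eq_sup]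
  exact Finset.sup_mono (MvPolynomial.support_map_subset σ G)

/-- the infinite places -/
theorem inf_part {K L : Type} [Field K] [NumberField K] [Field L] [NumberField L] [Algebra K L]
    {m : ℕ} (q : Fin m → ℕ) {r : Fin m → ℕ} (G : MvPolynomial (Fin m) K) (x : Fin m → L)
    (c : ∀ i, Fin (r i + 1) → 𝓞 K)
    (hx : ∀ i, ∑ j, algebraMap K L (c i j) * x i ^ (j : ℕ) = 0)
    (hG : MvPolynomial.aeval x G ≠ 0) (b : ℝ) (hb : 0 < b)
    (h : ∀ σ : K →+* ℂ, ¬ ∃ z : Fin m → ℂ, (∀ i, ∑ j, σ (c i j : K) * z i ^ (j : ℕ) = 0) ∧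
        ‖MvPolynomial.eval z (MvPolynomial.map σ G)‖ ≤ b * ∏ i, max 1 ‖z i‖ ^ q i) :
    ∑ w : InfinitePlace L, (w.mult : ℝ) *
      Real.log ((∏ i, max (w (x i)) 1 ^ q i) / w (MvPolynomial.aeval x G)) ≤
      -Real.log b * finrank ℚ L := by
  have h1 : ∀ w : InfinitePlace L,
      Real.log ((∏ i, max (w (x i)) 1 ^ q i) / w (MvPolynomial.aeval x G)) ≤ -Real.log b := by
    intro w
    have h2 := h (w.embedding.comp (algebraMap K L))
    have h3 := (not_exists.1 h2) (fun i => w.embedding (x i))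
    have h4 : ∀ i, ∑ j, (w.embedding.comp (algebraMap K L)) (c i j : K) *
        w.embedding (x i) ^ (j : ℕ) = 0 := by
      intro i
      have := congrArg w.embedding (hx i)
      rw [map_zero, map_sum] at this
      rw [← this]
      refine Finset.sum_congr rfl fun j _ => ?_
      rw [map_mul, map_pow]
      rfl
    have h5 : MvPolynomial.eval (fun i => w.embedding (x i))
        (MvPolynomial.map (w.embedding.comp (algebraMap K L)) G) =
        w.embedding (MvPolynomial.aeval x G) := by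
      rw [MvPolynomial.eval_map, MvPolynomial.aeval_def, MvPolynomial.eval₂_comp_left]
      rfl
    rw [not_and] at h3
    have h6 := not_le.1 (h3 h4)
    rw [h5, InfinitePlace.norm_embedding_eq] at h6
    simp only [InfinitePlace.norm_embedding_eq] at h6
    have h7 : 0 < w (MvPolynomial.aeval x G) := InfinitePlace.pos_iff.2 hG
    have h8 : ∏ i, max (w (x i)) 1 ^ q i = ∏ i, max 1 (w (x i)) ^ q i :=
      Finset.prod_congr rfl fun i _ => by rw [max_comm]
    have h9 : 0 < ∏ i, max 1 (w (x i)) ^ q i :=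
      Finset.prod_pos fun i _ => pow_pos (lt_max_of_lt_left one_pos) _
    rw [h8, ← Real.log_inv]
    refine Real.log_le_log (div_pos h9 h7) ?_
    rw [div_le_iff₀ h7, ← div_eq_inv_mul, le_div_iff₀ hb, mul_comm]
    exact h6.le
  have h2 : (finrank ℚ L : ℝ) = ∑ w : InfinitePlace L, (w.mult : ℝ) := by
    rw [← InfinitePlace.sum_mult_eq (K := L)]
    push_cast
    rfl
  rw [h2, Finset.mul_sum]
  refine Finset.sum_le_sum fun w _ => ?_
  rw [mul_comm]
  exact mul_le_mul_of_nonneg_right (h1 w) (Nat.cast_nonneg _)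

theorem log_pf {K L : Type} [Field K] [NumberField K] [Field L] [NumberField L] [Algebra K L]
    (v : HeightOneSpectrum (𝓞 K)) {y : K} (hy : y ≠ 0) :
    ∑ w ∈ ov L v, Real.log (FinitePlace.mk w (algebraMap K L y)) =
      finrank K L * Real.log (FinitePlace.mk v y) := by
  have h1 : algebraMap K L y ≠ 0 := (_root_.map_ne_zero _).2 hy
  have h2 := congrArg Real.log (pf (M := L) v h1)
  rw [Real.log_prod (fun w _ => (FinitePlace.pos_iff.2 h1).ne'), Algebra.norm_algebraMap,
    map_pow, Real.log_pow] at h2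
  exact h2

theorem mk_nat_pos {K : Type} [Field K] [NumberField K] (v : HeightOneSpectrum (𝓞 K)) {N : ℕ}
    (hN : N ≠ 0) : 0 < FinitePlace.mk v (N : K) := FinitePlace.pos_iff.2 (Nat.cast_ne_zero.2 hN)

theorem two_le_absNorm {K : Type} [Field K] [NumberField K] (v : HeightOneSpectrum (𝓞 K)) :
    2 ≤ Ideal.absNorm v.asIdeal := by
  have h1 : Ideal.absNorm v.asIdeal ≠ 0 := by
    rw [Ne, Ideal.absNorm_eq_zero_iff]
    exact v.ne_bot
  have h2 : Ideal.absNorm v.asIdeal ≠ 1 := by
    rw [Ne, Ideal.absNorm_eq_one_iff]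
    exact v.isPrime.ne_top
  omega

theorem lN_pos {K : Type} [Field K] [NumberField K] (v : HeightOneSpectrum (𝓞 K)) :
    0 < lN v := by
  unfold lN
  apply Real.log_pos
  exact_mod_cast two_le_absNorm v

/-- values which are not divisible by a large power of `v` -/
theorem small_v {K : Type} [Field K] [NumberField K] (v : HeightOneSpectrum (𝓞 K)) (y : 𝓞 K)
    (A : ℝ) (hA : 0 ≤ A) (h : ¬ ∃ e : ℕ, y ∈ v.asIdeal ^ e ∧ A ≤ e * lN v ∧ 1 ≤ e) :
    y ≠ 0 ∧ -Real.log (FinitePlace.mk v (y : K)) ≤ A := by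
  classical
  have hy : y ≠ 0 := by
    rintro rfl
    apply h
    obtain ⟨n, hn⟩ := exists_nat_ge (A / lN v)
    refine ⟨n + 1, Submodule.zero_mem _, ?_, Nat.le_add_left 1 n⟩
    rw [div_le_iff₀ (lN_pos v)] at hn
    push_cast
    have := lN_pos v
    nlinarith
  refine ⟨hy, ?_⟩
  rw [mk_int v hy, Real.log_inv, neg_neg]
  push_cast
  rw [Real.log_pow]
  set e := Multiset.count v.asIdeal
    (UniqueFactorizationMonoid.normalizedFactors (Ideal.span {y})) with he
  rcases Nat.eq_zero_or_pos e with h0 | h0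
  · rw [h0]; simpa using hA
  · by_contra h1
    apply h
    refine ⟨e, ?_, (not_le.1 h1).le, h0⟩
    have h2 : Ideal.span {y} ≠ 0 := by
      rw [Ne, Ideal.zero_eq_bot, Ideal.span_singleton_eq_bot]
      exact hy
    have h3 : v.asIdeal ^ e ∣ Ideal.span {y} := by
      rw [pow_dvd_iff_le_emultiplicity,
        UniqueFactorizationMonoid.emultiplicity_eq_count_normalizedFactors v.irreducible h2,
        normalize_eq]
    rwa [Ideal.dvd_span_singleton] at h3

/-- the finite places -/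
theorem fin_part {K L : Type} [Field K] [NumberField K] [Field L] [NumberField L] [Algebra K L]
    (s : ℕ) (N : ℕ) (hN : N ≠ 0) (T : Finset (HeightOneSpectrum (𝓞 K)))
    (F : HeightOneSpectrum (𝓞 L) → ℝ) (y : Fin s → 𝓞 K) (A : ℝ) (hA : 0 ≤ A)
    (h : (∀ t, y t ≠ 0) → ∀ w, F w ≤
      ∑ t, -Real.log (FinitePlace.mk w (algebraMap K L (y t : 𝓞 K))) -
            Real.log (FinitePlace.mk w (N : L)))
    (hy : ∀ t, ∀ v ∈ T, ¬ ∃ e : ℕ, y t ∈ v.asIdeal ^ e ∧ A ≤ e * lN v ∧ 1 ≤ e) :
    ∑ v ∈ T, ∑ w ∈ ov L v, F w ≤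
      finrank K L * (s * T.card * A + ∑ v ∈ T, -Real.log (FinitePlace.mk v (N : K))) := by
  rcases T.eq_empty_or_nonempty with hT | ⟨v0, hv0⟩
  · subst hT
    simp
  have hy0 : ∀ t, y t ≠ 0 := fun t => (small_v v0 (y t) A hA (hy t v0 hv0)).1
  have h1 := h hy0
  have h2 : ∀ v ∈ T, ∑ w ∈ ov L v, F w ≤
      finrank K L * (s * A - Real.log (FinitePlace.mk v (N : K))) := by
    intro v hv
    have h3 : ∑ w ∈ ov L v, F w ≤ ∑ w ∈ ov L v,
        (∑ t, -Real.log (FinitePlace.mk w (algebraMap K L (y t : 𝓞 K))) -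
            Real.log (FinitePlace.mk w (N : L))) := Finset.sum_le_sum fun w _ => h1 w
    refine h3.trans ?_
    rw [Finset.sum_sub_distrib, Finset.sum_comm]
    have h4 : ∑ w ∈ ov L v, Real.log (FinitePlace.mk w (N : L)) =
        finrank K L * Real.log (FinitePlace.mk v (N : K)) := by
      have := log_pf (L := L) v (y := (N : K)) (Nat.cast_ne_zero.2 hN)
      rw [map_natCast] at this
      exact this
    rw [h4, mul_sub]
    refine sub_le_sub_right ?_ _
    have h5 : ∀ t : Fin s, ∑ w ∈ ov L v,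
        -Real.log (FinitePlace.mk w (algebraMap K L (y t : 𝓞 K))) ≤ finrank K L * A := by
      intro t
      rw [Finset.sum_neg_distrib, log_pf (L := L) v
        (y := ((y t : 𝓞 K) : K)) (fun h => hy0 t (RingOfIntegers.coe_eq_zero_iff.1 h)), ← mul_neg]
      exact mul_le_mul_of_nonneg_left (small_v v (y t) A hA (hy t v hv)).2 (Nat.cast_nonneg _)
    refine (Finset.sum_le_sum fun t _ => h5 t).trans ?_
    rw [Finset.sum_const, Finset.card_univ, Fintype.card_fin, nsmul_eq_mul]
    apply le_of_eq; ring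
  refine (Finset.sum_le_sum h2).trans ?_
  rw [← Finset.mul_sum, Finset.sum_sub_distrib, Finset.sum_const, nsmul_eq_mul,
    Finset.sum_neg_distrib]
  apply le_of_eq; ring

end Pool.Agent.N225.PC
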